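import Mathlib
import Pool.Graph.R_pool_sql_team_seeded_63374d34.N615.QR_LAT

/-!
# Project ZT (helper993), task 1: the sum of `1 / λ_k` in two dimensions
-/

namespace Pool.Agent.H766.ZT

open Pool.Agent.N657.QR (lam)
open Pool.Agent.N615.QRLAT (mu mu_nn mu_one val_le cos_bd sum_val)

theorem sum_sq_row (m M : ℕ) :
    ∑ n ∈ Finset.range M, 1 / ((1 : ℝ) + m + n) ^ 2 ≤ 2 / (1 + (m : ℝ)) - 2 / (1 + m + M) := by
  induction M with
  | zero => simp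
  | succ M ih =>
    rw [Finset.sum_range_succ]
    push_cast
    have hx : (1 : ℝ) ≤ 1 + m + M := by
      have h1 : (0 : ℝ) ≤ m := Nat.cast_nonneg _
      have h2 : (0 : ℝ) ≤ M := Nat.cast_nonneg _
      linarith
    have key : ∀ x : ℝ, 1 ≤ x → 1 / x ^ 2 ≤ 2 / x - 2 / (x + 1) := by
      intro x hx
      have e : 2 / x - 2 / (x + 1) = 2 / (x * (x + 1)) := by
        have h1 : x ≠ 0 := by linarith
        have h2 : x + 1 ≠ 0 := by linarith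
        field_simp
        ring
      rw [e, div_le_div_iff₀ (by positivity) (by positivity)]
      nlinarith
    have h := key _ hx
    have e : (1 : ℝ) + m + M + 1 = 1 + m + (M + 1) := by ring
    rw [e] at h
    linarith

theorem sum_quad (L : ℕ) :
    ∑ m ∈ Finset.range L, ∑ n ∈ Finset.range L, 1 / ((1 : ℝ) + (m : ℝ) ^ 2 + (n : ℝ) ^ 2) ≤
      6 * (1 + Real.log L) := by
  have h1 : ∀ m ∈ Finset.range L, ∑ n ∈ Finset.range L,
      1 / ((1 : ℝ) + (m : ℝ) ^ 2 + (n : ℝ) ^ 2) ≤ 6 * (1 / ((m : ℝ) + 1)) := by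
    intro m _
    have hm : (0 : ℝ) ≤ m := Nat.cast_nonneg _
    calc ∑ n ∈ Finset.range L, 1 / ((1 : ℝ) + (m : ℝ) ^ 2 + (n : ℝ) ^ 2)
        ≤ ∑ n ∈ Finset.range L, 3 * (1 / ((1 : ℝ) + m + n) ^ 2) := by
          apply Finset.sum_le_sum
          intro n _
          have hn : (0 : ℝ) ≤ n := Nat.cast_nonneg _
          rw [← mul_div_assoc, mul_one, div_le_div_iff₀ (by positivity) (by positivity)]
          nlinarith [sq_nonneg ((m : ℝ) - n), sq_nonneg ((m : ℝ) - 1), sq_nonneg ((n : ℝ) - 1)]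
      _ = 3 * ∑ n ∈ Finset.range L, 1 / ((1 : ℝ) + m + n) ^ 2 := by rw [Finset.mul_sum]
      _ ≤ 3 * (2 / (1 + (m : ℝ)) - 2 / (1 + m + L)) :=
          mul_le_mul_of_nonneg_left (sum_sq_row m L) (by norm_num)
      _ ≤ 3 * (2 / (1 + (m : ℝ))) := by
          have h2 : (0 : ℝ) ≤ 2 / (1 + m + L) := by positivity
          linarith
      _ = 6 * (1 / ((m : ℝ) + 1)) := by
          rw [add_comm (1 : ℝ) (m : ℝ)]
          ring
  refine (Finset.sum_le_sum h1).trans ?_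
  rw [← Finset.mul_sum]
  apply mul_le_mul_of_nonneg_left _ (by norm_num)
  have h3 := harmonic_le_one_add_log L
  have h4 : ((harmonic L : ℚ) : ℝ) = ∑ m ∈ Finset.range L, 1 / ((m : ℝ) + 1) := by
    unfold harmonic
    push_cast
    refine Finset.sum_congr rfl fun m _ => ?_
    rw [one_div]
  rw [← h4]
  exact h3

section

variable {L : ℕ} [NeZero L]

theorem min_inv (a b s : ℝ) (hs : 0 ≤ s) :
    1 / (1 + (min a b) ^ 2 + s) ≤ 1 / (1 + a ^ 2 + s) + 1 / (1 + b ^ 2 + s) := by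
  have h1 : (0 : ℝ) ≤ 1 / (1 + a ^ 2 + s) := by positivity
  have h2 : (0 : ℝ) ≤ 1 / (1 + b ^ 2 + s) := by positivity
  rcases le_total a b with h | h
  · rw [min_eq_left h]
    linarith
  · rw [min_eq_right h]
    linarith

/-- the sum over one coordinate -/
theorem sum_mu_sq (s : ℝ) (hs : 0 ≤ s) : ∑ t : ZMod L, 1 / (1 + mu t ^ 2 + s) ≤
    2 * ∑ m ∈ Finset.range L, 1 / ((1 : ℝ) + (m : ℝ) ^ 2 + s) := by
  have h1 : ∀ t : ZMod L, 1 / (1 + mu t ^ 2 + s) ≤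
      1 / ((1 : ℝ) + (t.val : ℝ) ^ 2 + s) + 1 / ((1 : ℝ) + ((L - 1 - t.val : ℕ) : ℝ) ^ 2 + s) := by
    intro t
    have hv := val_le t
    have hlt := ZMod.val_lt t
    have e : ((L - 1 - t.val : ℕ) : ℝ) = (L : ℝ) - 1 - t.val := by
      rw [Nat.cast_sub (by omega), Nat.cast_sub (by omega)]
      push_cast
      ring
    have hv0 : (0 : ℝ) ≤ t.val := Nat.cast_nonneg _
    unfold mu
    refine (min_inv _ _ s hs).trans ?_
    apply add_le_add le_rfl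
    rw [e]
    apply one_div_le_one_div_of_le
    · have : (0 : ℝ) ≤ ((L : ℝ) - 1 - t.val) ^ 2 := sq_nonneg _
      linarith
    · nlinarith
  calc ∑ t : ZMod L, 1 / (1 + mu t ^ 2 + s)
      ≤ ∑ t : ZMod L, (1 / ((1 : ℝ) + (t.val : ℝ) ^ 2 + s) +
          1 / ((1 : ℝ) + ((L - 1 - t.val : ℕ) : ℝ) ^ 2 + s)) :=
        Finset.sum_le_sum fun t _ => h1 t
    _ = ∑ m ∈ Finset.range L, 1 / ((1 : ℝ) + (m : ℝ) ^ 2 + s) +
          ∑ m ∈ Finset.range L, 1 / ((1 : ℝ) + ((L - 1 - m : ℕ) : ℝ) ^ 2 + s) := by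
        rw [Finset.sum_add_distrib, sum_val (fun m => 1 / ((1 : ℝ) + (m : ℝ) ^ 2 + s)),
          sum_val (fun m => 1 / ((1 : ℝ) + ((L - 1 - m : ℕ) : ℝ) ^ 2 + s))]
    _ = 2 * ∑ m ∈ Finset.range L, 1 / ((1 : ℝ) + (m : ℝ) ^ 2 + s) := by
        rw [Finset.sum_range_reflect (fun m => 1 / ((1 : ℝ) + (m : ℝ) ^ 2 + s)) L]
        ring

theorem sum_mu2 : ∑ s : ZMod L, ∑ t : ZMod L, 1 / (1 + mu s ^ 2 + mu t ^ 2) ≤
    24 * (1 + Real.log L) := by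
  have h1 : ∑ s : ZMod L, ∑ t : ZMod L, 1 / (1 + mu s ^ 2 + mu t ^ 2) ≤
      ∑ t : ZMod L, 2 * ∑ m ∈ Finset.range L, 1 / ((1 : ℝ) + (m : ℝ) ^ 2 + mu t ^ 2) := by
    rw [Finset.sum_comm]
    exact Finset.sum_le_sum fun t _ => sum_mu_sq (mu t ^ 2) (sq_nonneg _)
  refine h1.trans ?_
  rw [← Finset.mul_sum, Finset.sum_comm]
  have h2 : ∑ m ∈ Finset.range L, ∑ t : ZMod L, 1 / ((1 : ℝ) + (m : ℝ) ^ 2 + mu t ^ 2) ≤
      ∑ m ∈ Finset.range L, 2 * ∑ n ∈ Finset.range L, 1 / ((1 : ℝ) + (m : ℝ) ^ 2 + (n : ℝ) ^ 2) := by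
    apply Finset.sum_le_sum
    intro m _
    have h3 := sum_mu_sq (L := L) ((m : ℝ) ^ 2) (sq_nonneg _)
    have e1 : ∀ t : ZMod L, 1 / ((1 : ℝ) + (m : ℝ) ^ 2 + mu t ^ 2) =
        1 / (1 + mu t ^ 2 + (m : ℝ) ^ 2) := fun t => by ring_nf
    have e2 : ∀ n : ℕ, 1 / ((1 : ℝ) + (m : ℝ) ^ 2 + (n : ℝ) ^ 2) =
        1 / (1 + (n : ℝ) ^ 2 + (m : ℝ) ^ 2) := fun t => by ring_nf
    rw [Finset.sum_congr rfl fun t _ => e1 t, Finset.sum_congr rfl fun t _ => e2 t]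
    exact h3
  have h4 := sum_quad L
  rw [← Finset.mul_sum] at h2
  linarith

/-- the bound for one momentum -/
theorem one_k2 {k : Fin 2 → ZMod L} (hk : k ≠ 0) :
    1 / lam k ≤ (L : ℝ) ^ 2 / 8 * (1 / (1 + mu (k 0) ^ 2 + mu (k 1) ^ 2)) := by
  have hL : (0 : ℝ) < L := by exact_mod_cast Nat.pos_of_ne_zero (NeZero.ne L)
  have h1 : 16 * (mu (k 0) ^ 2 + mu (k 1) ^ 2) / L ^ 2 ≤ lam k := by
    unfold lam
    rw [Fin.sum_univ_two, mul_add, add_div]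
    apply add_le_add
    · exact cos_bd hL (Nat.cast_nonneg _) (by have := val_le (k 0); linarith)
    · exact cos_bd hL (Nat.cast_nonneg _) (by have := val_le (k 1); linarith)
  have h2 : 1 ≤ mu (k 0) ^ 2 + mu (k 1) ^ 2 := by
    obtain ⟨i, hi'⟩ := Function.ne_iff.1 hk
    have h4 := mu_one (show k i ≠ 0 from hi')
    fin_cases i
    · have h4' : 1 ≤ mu (k 0) := h4
      nlinarith [sq_nonneg (mu (k 1))]
    · have h4' : 1 ≤ mu (k 1) := h4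
      nlinarith [sq_nonneg (mu (k 0))]
  have h3 : 8 * (1 + mu (k 0) ^ 2 + mu (k 1) ^ 2) / L ^ 2 ≤ lam k := by
    refine le_trans ?_ h1
    apply div_le_div_of_nonneg_right _ (by positivity)
    linarith
  have h4 : 0 < 8 * (1 + mu (k 0) ^ 2 + mu (k 1) ^ 2) / (L : ℝ) ^ 2 := by positivity
  calc 1 / lam k ≤ 1 / (8 * (1 + mu (k 0) ^ 2 + mu (k 1) ^ 2) / (L : ℝ) ^ 2) :=
        one_div_le_one_div_of_le h4 h3
    _ = (L : ℝ) ^ 2 / 8 * (1 / (1 + mu (k 0) ^ 2 + mu (k 1) ^ 2)) := by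
        field_simp

end

/-- **Task 1.** The sum of `1/λ_k` in two dimensions. -/
theorem task_lat2 : ∃ C : ℝ, 0 < C ∧ ∀ (L : ℕ) [NeZero L],
    ∑ k ∈ (Finset.univ : Finset (Fin 2 → ZMod L)).erase 0, 1 / lam k ≤
      C * (1 + Real.log L) * (Fintype.card (Fin 2 → ZMod L) : ℝ) := by
  refine ⟨3, by norm_num, ?_⟩
  intro L _
  have hcard : (Fintype.card (Fin 2 → ZMod L) : ℝ) = (L : ℝ) ^ 2 := by
    rw [Fintype.card_fun, ZMod.card, Fintype.card_fin]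
    push_cast
    rfl
  rw [hcard]
  calc ∑ k ∈ (Finset.univ : Finset (Fin 2 → ZMod L)).erase 0, 1 / lam k
      ≤ ∑ k ∈ (Finset.univ : Finset (Fin 2 → ZMod L)).erase 0,
          (L : ℝ) ^ 2 / 8 * (1 / (1 + mu (k 0) ^ 2 + mu (k 1) ^ 2)) :=
        Finset.sum_le_sum fun k hk => one_k2 (Finset.ne_of_mem_erase hk)
    _ ≤ ∑ k : Fin 2 → ZMod L, (L : ℝ) ^ 2 / 8 * (1 / (1 + mu (k 0) ^ 2 + mu (k 1) ^ 2)) := by
        apply Finset.sum_le_sum_of_subset_of_nonneg (Finset.subset_univ _)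
        intro k _ _
        positivity
    _ = (L : ℝ) ^ 2 / 8 * ∑ s : ZMod L, ∑ t : ZMod L, 1 / (1 + mu s ^ 2 + mu t ^ 2) := by
        rw [← Finset.mul_sum]
        congr 1
        rw [← (finTwoArrowEquiv (ZMod L)).symm.sum_comp, Fintype.sum_prod_type]
        rfl
    _ ≤ (L : ℝ) ^ 2 / 8 * (24 * (1 + Real.log L)) :=
        mul_le_mul_of_nonneg_left sum_mu2 (by positivity)
    _ = 3 * (1 + Real.log L) * (L : ℝ) ^ 2 := by ring

end Pool.Agent.H766.ZT
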