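import Mathlib
import Pool.Graph.R_pool_sql_team_seeded_63374d34.N657.QR.All

/-!
# Project ZT (helper993), task 2: functions of almost minimal energy have almost the correlations of
the ground state
-/

namespace Pool.Agent.H766.ZT

open Filter Topology Matrix
open Pool.Agent.N657.QR (IsG FE FF nr cr en Conn)

/-- **Task 2.** Functions of almost minimal energy have almost the correlations of the ground
state. -/
theorem task_near {V : Type} [Fintype V] [DecidableEq V] [Nonempty V] {K : Matrix V V ℝ}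
    {w : V → V → ℝ} {ν : V → ℝ} {N : ℤ} (hK : K.PosDef) (hw : ∀ x y, 0 ≤ w x y) (hc : Conn w)
    {Φ : (V → ℤ) → ℝ} (hΦ : IsG K w ν N Φ) (δ : ℝ) (hδ : 0 < δ) :
    ∃ ε : ℝ, 0 < ε ∧ ∀ f : (V → ℤ) → ℝ, FE f → Pool.Agent.N657.QR.Sec N f → nr f = 1 →
      FF K w ν f ≤ en K w ν N + ε → ∀ x y, |cr x y f - cr x y Φ| ≤ δ := by
  by_contra hcon
  push Not at hcon
  choose f hfFE hfS hfn hfE x y hxy using
    fun k : ℕ => hcon (1 / ((k : ℝ) + 1)) (by positivity)
  have hlim : Tendsto (fun k => FF K w ν (f k)) atTop (𝓝 (en K w ν N)) := by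
    have h1 : Tendsto (fun k : ℕ => en K w ν N + 1 / ((k : ℝ) + 1)) atTop (𝓝 (en K w ν N)) := by
      have h2 := (tendsto_const_nhds (x := en K w ν N) (f := (atTop : Filter ℕ))).add
        (tendsto_one_div_add_atTop_nhds_zero_nat (𝕜 := ℝ))
      simpa using h2
    refine tendsto_of_tendsto_of_tendsto_of_le_of_le tendsto_const_nhds h1 ?_ hfE
    intro k
    have h3 := Pool.Agent.N657.QR.lb K w ν N (f k) hK.posSemidef hw (hfFE k) (hfS k)
    rw [hfn k, mul_one] at h3
    exact h3
  obtain ⟨Φ', hΦ', g, _, hg⟩ := Pool.Agent.N657.QR.cpt K w ν N f hK hw hfFE hfS hfn hlim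
  have heq : ∀ a b, cr a b Φ' = cr a b Φ := by
    intro a b
    rcases (Pool.Agent.N657.QR.un K w ν N Φ Φ' hK hw hc hΦ hΦ').2 with h | h
    · have e : Φ' = Φ := funext h
      rw [e]
    · unfold cr
      refine tsum_congr fun n => ?_
      rw [h, h]
      ring
  have hev : ∀ a b, ∀ᶠ k in atTop, |cr a b (f (g k)) - cr a b Φ| < δ := by
    intro a b
    have h1 := hg a b
    rw [heq a b] at h1
    have h2 := Metric.tendsto_nhds.1 h1 δ hδ
    simpa [Real.dist_eq] using h2
  have hall : ∀ᶠ k in atTop, ∀ a b, |cr a b (f (g k)) - cr a b Φ| < δ := by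
    rw [eventually_all]
    intro a
    rw [eventually_all]
    exact hev a
  obtain ⟨k, hk⟩ := hall.exists
  exact absurd (hk (x (g k)) (y (g k))) (not_lt.2 (hxy (g k)).le)

end Pool.Agent.H766.ZT
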